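import Pool.Agent.W811.Stu.Stmts2

/-!
SD-BDD: bounds on the spectrum and escape off it.
-/

set_option autoImplicit false

open Filter Topology

namespace Pool.Agent.W308.Stu

open Pool.Agent.W811.Stu

/-- the sequence of traces -/
def tq (p : P3) (k : ℕ) : ℝ := (stepR^[k] p).z

theorem stepR_y (p : P3) (k : ℕ) : (stepR^[k] p).y = p.y := by
  induction k with
  | zero => rfl
  | succ k ih => rw [Function.iterate_succ_apply']; exact ih

theorem stepR_x (p : P3) (k : ℕ) : (stepR^[k] p).x = tq p (k + 1) := by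
  unfold tq
  rw [Function.iterate_succ_apply']
  rfl

theorem tq_zero (p : P3) : tq p 0 = p.z := rfl

theorem tq_one (p : P3) : tq p 1 = p.x := rfl

theorem tq_rec (p : P3) (k : ℕ) : tq p (k + 2) = 2 * p.y * tq p (k + 1) - tq p k := by
  rw [← stepR_x, Function.iterate_succ_apply']
  change 2 * (stepR^[k] p).x * (stepR^[k] p).y - (stepR^[k] p).z = _
  rw [stepR_x, stepR_y]
  unfold tq
  ring

theorem stepT_eq (p : P3) (b : ℕ) : stepT b p = ⟨p.y, tq p b, tq p (b + 1)⟩ := by
  unfold stepT stepS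
  rw [stepR_y, stepR_x]
  rfl

theorem onS_stepR {δ : ℝ} {p : P3} (h : OnS δ p) (k : ℕ) : OnS δ (stepR^[k] p) := by
  induction k with
  | zero => exact h
  | succ k ih => rw [Function.iterate_succ_apply']; exact ih.R

theorem onS_stepT {δ : ℝ} {p : P3} (h : OnS δ p) (b : ℕ) : OnS δ (stepT b p) :=
  (onS_stepR h b).S

theorem onS_lin (lam E : ℝ) : OnS (lam / 2) (lin lam E) := by
  unfold OnS lin
  simp only
  ring

theorem onS_orb (lam E : ℝ) (d : ℕ → ℕ) (m : ℕ) : OnS (lam / 2) (orb d (lin lam E) m) := by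
  induction m with
  | zero => exact onS_lin lam E
  | succ m ih => exact onS_stepT ih _

/-- one step of growth -/
theorem grow1 (p : P3) (hy : 1 ≤ |p.y|) (k : ℕ) (h : |tq p k| ≤ |tq p (k + 1)|) :
    (2 * |p.y| - 1) * |tq p (k + 1)| ≤ |tq p (k + 2)| := by
  rw [tq_rec]
  have h1 : |2 * p.y * tq p (k + 1)| - |tq p k| ≤ |2 * p.y * tq p (k + 1) - tq p k| :=
    abs_sub_abs_le_abs_sub _ _
  have h2 : |2 * p.y * tq p (k + 1)| = 2 * |p.y| * |tq p (k + 1)| := by
    rw [abs_mul, abs_mul, abs_two]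
  rw [h2] at h1
  linarith

theorem grow (p : P3) (hy : 1 ≤ |p.y|) (k : ℕ) (h : |tq p k| ≤ |tq p (k + 1)|) (e : ℕ) :
    |tq p (k + e)| ≤ |tq p (k + e + 1)| := by
  induction e with
  | zero => exact h
  | succ e ih =>
    have h1 := grow1 p hy (k + e) ih
    have h2 : |tq p (k + e + 1)| ≤ (2 * |p.y| - 1) * |tq p (k + e + 1)| :=
      le_mul_of_one_le_left (abs_nonneg _) (by linarith)
    exact h2.trans h1

theorem grow' (p : P3) (hy : 1 ≤ |p.y|) (k : ℕ) (h : |tq p k| ≤ |tq p (k + 1)|) (j : ℕ)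
    (hj : k + 1 ≤ j) : |tq p (k + 1)| ≤ |tq p j| ∧ (2 * |p.y| - 1) * |tq p j| ≤ |tq p (j + 1)| := by
  obtain ⟨e, rfl⟩ : ∃ e, j = k + 1 + e := ⟨j - (k + 1), by omega⟩
  constructor
  · induction e with
    | zero => exact le_rfl
    | succ e ih =>
      refine (ih (by omega)).trans ?_
      have := grow p hy k h (e + 1)
      have e1 : k + (e + 1) = k + 1 + e := by ring
      have e2 : k + (e + 1) + 1 = k + 1 + (e + 1) := by ring
      rw [e2, e1] at this
      exact this
  · have h1 := grow p hy k h e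
    have h2 := grow1 p hy (k + e) h1
    have e1 : k + e + 1 = k + 1 + e := by ring
    have e2 : k + e + 2 = k + 1 + e + 1 := by ring
    rw [e2, e1] at h2
    exact h2

/-- a bad state -/
def Bad (p : P3) : Prop := 1 < |p.z| ∧ 1 < |p.y| ∧ (2 * |p.z| - 1) * |p.y| ≤ |p.x|

theorem Bad.le {p : P3} (h : Bad p) : |p.y| ≤ |p.x| ∧ |p.z| ≤ |p.x| := by
  obtain ⟨h1, h2, h3⟩ := h
  constructor
  · refine le_trans ?_ h3
    exact le_mul_of_one_le_left (abs_nonneg _) (by linarith)
  · refine le_trans ?_ h3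
    nlinarith

theorem Bad.step {p : P3} (h : Bad p) (b : ℕ) (hb : 1 ≤ b) :
    Bad (stepT b p) ∧ |p.x| ≤ |(stepT b p).y| := by
  have hle := h.le
  have h0 : |tq p 0| ≤ |tq p (0 + 1)| := by
    rw [tq_zero, zero_add, tq_one]; exact hle.2
  have h1 := grow' p h.2.1.le 0 h0 b (by omega)
  rw [zero_add, tq_one] at h1
  rw [stepT_eq]
  refine ⟨⟨h.2.1, ?_, h1.2⟩, h1.1⟩
  simp only
  exact lt_of_lt_of_le (lt_of_lt_of_le h.2.1 hle.1) h1.1

/-- entering the bad region -/
theorem enter {p : P3} (hz : |p.z| ≤ 1) (hy : 1 < |p.y|) (b : ℕ) (hb : 1 ≤ b)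
    (ht : 1 < |tq p b|) : Bad (stepT b p) := by
  classical
  have hex : ∃ k, 1 < |tq p k| := ⟨b, ht⟩
  have h1 := Nat.find_spec hex
  have h2 : Nat.find hex ≤ b := Nat.find_min' hex ht
  have h0 : Nat.find hex ≠ 0 := by
    intro h0
    rw [h0, tq_zero] at h1
    linarith
  obtain ⟨k, hk⟩ := Nat.exists_eq_succ_of_ne_zero h0
  have h3 : ¬ 1 < |tq p k| := Nat.find_min hex (by omega)
  rw [hk] at h1 h2
  have h4 : |tq p k| ≤ |tq p (k + 1)| := by
    have : 1 < |tq p (k + 1)| := h1
    linarith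
  have h5 := grow' p hy.le k h4 b h2
  rw [stepT_eq]
  exact ⟨hy, ht, h5.2⟩

theorem tEsc : TEsc := by
  intro lam _ d hd E hE
  set o := orb d (lin lam E) with ho
  have hos : ∀ m, o (m + 1) = stepT (d m) (o m) := fun m => rfl
  have hzs : ∀ m, (o (m + 1)).z = (o m).y := by
    intro m; rw [hos, stepT_eq]
  have hys : ∀ m, (o (m + 1)).y = tq (o m) (d m) := by
    intro m; rw [hos, stepT_eq]
  -- entering
  have hex : ∃ m, 1 < |(o m).y| ∧ 1 < |(o (m + 1)).y| := by
    by_contra hcon
    push Not at hcon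
    apply hE
    intro m
    rcases le_or_gt |(o m).y| 1 with h | h
    · exact Or.inl h
    · exact Or.inr (hcon m h)
  classical
  obtain ⟨h1, h2⟩ := Nat.find_spec hex
  set m := Nat.find hex with hm
  have hz : |(o m).z| ≤ 1 := by
    rcases Nat.eq_zero_or_pos m with h0 | h0
    · rw [h0]
      change |(1 : ℝ)| ≤ 1
      simp
    · have h3 := Nat.find_min hex (m := m - 1) (by omega)
      have e : m - 1 + 1 = m := by omega
      rw [e] at h3
      have h4 := hzs (m - 1)
      rw [e] at h4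
      rw [h4]
      by_contra hcon
      push Not at hcon
      exact h3 ⟨hcon, h1⟩
  have hB : Bad (o (m + 1)) := by
    rw [hos]
    apply enter hz h1 _ (hd m)
    rw [← hys]
    exact h2
  have hBall : ∀ e, Bad (o (m + 1 + e)) := by
    intro e
    induction e with
    | zero => exact hB
    | succ e ih =>
      rw [← add_assoc, hos]
      exact (ih.step _ (hd _)).1
  have hgrow : ∀ e, (2 * |(o (m + 1 + e)).z| - 1) * |(o (m + 1 + e)).y| ≤
      |(o (m + 1 + (e + 1))).y| := by
    intro e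
    refine (hBall e).2.2.trans ?_
    rw [← add_assoc, hos]
    exact ((hBall e).step _ (hd _)).2
  have hmono : ∀ e, |(o (m + 1 + e)).y| ≤ |(o (m + 1 + (e + 1))).y| := by
    intro e
    refine le_trans ?_ (hgrow e)
    exact le_mul_of_one_le_left (abs_nonneg _) (by have := (hBall e).1; linarith)
  set η := min |(o (m + 1)).z| |(o (m + 1)).y| with hη
  have hη1 : 1 < η := lt_min hB.1 hB.2.1
  have hyη : ∀ e, η ≤ |(o (m + 1 + e)).y| := by
    intro e
    induction e with
    | zero => exact min_le_right _ _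
    | succ e ih => exact ih.trans (hmono e)
  have hzη : ∀ e, η ≤ |(o (m + 1 + e)).z| := by
    intro e
    cases e with
    | zero => exact min_le_left _ _
    | succ e =>
      rw [← add_assoc, hzs]
      exact hyη e
  have hexp : ∀ e, η ^ e ≤ |(o (m + 1 + e)).y| := by
    intro e
    induction e with
    | zero =>
      rw [pow_zero]
      exact hη1.le.trans (hyη 0)
    | succ e ih =>
      refine le_trans ?_ (hgrow e)
      rw [pow_succ']
      apply mul_le_mul _ ih (by positivity)
      · have := hzη e; linarith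
      · have := hzη e; linarith
  have hlim : Tendsto (fun e => |(o (m + 1 + e)).y|) atTop atTop :=
    tendsto_atTop_mono hexp (tendsto_pow_atTop_atTop_of_one_lt hη1)
  have := (tendsto_add_atTop_iff_nat (f := fun n => |(o n).y|) (m + 1)).1 (by
    refine hlim.congr fun e => ?_
    rw [add_comm])
  exact this

theorem sq_bd {δ y x z : ℝ} (h : (y - x * z) ^ 2 ≤ 1 + δ ^ 2) (B : ℝ) (hB : |x * z| ≤ B) :
    |y| ≤ B + Real.sqrt (1 + δ ^ 2) := by
  have h1 : |y - x * z| ≤ Real.sqrt (1 + δ ^ 2) := by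
    rw [← Real.sqrt_sq_eq_abs]
    exact Real.sqrt_le_sqrt h
  have h2 : |y| ≤ |y - x * z| + |x * z| := by
    have := abs_add_le (y - x * z) (x * z)
    simpa using this
  linarith

theorem tBdd : TBdd := by
  intro lam _
  set S := Real.sqrt (1 + (lam / 2) ^ 2) with hS
  have hS0 : 0 ≤ S := Real.sqrt_nonneg _
  refine ⟨1 + 2 * S, ?_⟩
  intro d hd E hE
  set o := orb d (lin lam E) with ho
  have hos : ∀ m, o (m + 1) = stepT (d m) (o m) := fun m => rfl
  have hzs : ∀ m, (o (m + 1)).z = (o m).y := by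
    intro m; rw [hos, stepT_eq]
  have hys : ∀ m, (o (m + 1)).y = tq (o m) (d m) := by
    intro m; rw [hos, stepT_eq]
  have hon : ∀ m, OnS (lam / 2) (o m) := onS_orb lam E d
  have hE' : ∀ m, |(o m).y| ≤ 1 ∨ |(o (m + 1)).y| ≤ 1 := hE
  -- if |y| > 1 then |z|, |x| ≤ 1
  have hbig : ∀ m, 1 < |(o m).y| → |(o m).z| ≤ 1 ∧ |(o m).x| ≤ 1 := by
    intro m hm
    have hz : |(o m).z| ≤ 1 := by
      cases m with
      | zero =>
        change |(1 : ℝ)| ≤ 1
        simp
      | succ m =>
        rw [hzs]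
        rcases hE' m with h | h
        · exact h
        · linarith
    refine ⟨hz, ?_⟩
    by_contra hcon
    push Not at hcon
    have h1 : |(o (m + 1)).y| ≤ 1 := by
      rcases hE' m with h | h
      · linarith
      · exact h
    rw [hys] at h1
    have h0 : |tq (o m) 0| ≤ |tq (o m) (0 + 1)| := by
      rw [tq_zero, zero_add, tq_one]; linarith
    have h2 := (grow' (o m) hm.le 0 h0 (d m) (by have := hd m; omega)).1
    rw [zero_add, tq_one] at h2
    linarith
  have hy : ∀ m, |(o m).y| ≤ 1 + S := by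
    intro m
    rcases le_or_gt |(o m).y| 1 with h | h
    · linarith
    · obtain ⟨hz, hx⟩ := hbig m h
      have hz2 := sq_le_one_iff_abs_le_one (o m).z |>.2 hz
      have hx2 := sq_le_one_iff_abs_le_one (o m).x |>.2 hx
      have h1 := hon m
      unfold OnS at h1
      have h2 : ((o m).y - (o m).x * (o m).z) ^ 2 ≤ 1 + (lam / 2) ^ 2 := by
        nlinarith [mul_nonneg (sq_nonneg (o m).x) (sub_nonneg.2 hz2), sq_nonneg (o m).z]
      apply sq_bd h2
      rw [abs_mul]
      exact mul_le_one₀ hx (abs_nonneg _) hz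
  have hz : ∀ m, |(o m).z| ≤ 1 + S := by
    intro m
    cases m with
    | zero =>
      change |(1 : ℝ)| ≤ 1 + S
      simp [hS0]
    | succ m => rw [hzs]; exact hy m
  have hx : ∀ m, |(o m).x| ≤ 1 + 2 * S := by
    intro m
    rcases le_or_gt |(o m).y| 1 with h | h
    · have hy2 := sq_le_one_iff_abs_le_one (o m).y |>.2 h
      have h1 := hon m
      unfold OnS at h1
      have h2 : ((o m).x - (o m).y * (o m).z) ^ 2 ≤ 1 + (lam / 2) ^ 2 := by
        nlinarith [mul_nonneg (sq_nonneg (o m).z) (sub_nonneg.2 hy2), sq_nonneg (o m).y]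
      have h3 := sq_bd h2 (1 + S) (by
        rw [abs_mul]
        calc |(o m).y| * |(o m).z| ≤ 1 * (1 + S) :=
              mul_le_mul h (hz m) (abs_nonneg _) zero_le_one
          _ = 1 + S := one_mul _)
      linarith
    · have := (hbig m h).2
      linarith
  intro m
  exact ⟨by have := hz m; linarith, by have := hy m; linarith, hx m⟩

end Pool.Agent.W308.Stu
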