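import Pool.Agent.W308.Stu.Cross2

/-!
SD-CROSS: the crossing lemma.
-/

set_option autoImplicit false

open Filter Topology Set

namespace Pool.Agent.W308.Stu

open Pool.Agent.W811.Stu

theorem twist_bd {δ c a v : ℝ} (hδ : 0 < δ) (hc : c ^ 2 ≤ 1 / 4)
    (hS : a ^ 2 + c ^ 2 + v ^ 2 - 2 * a * c * v = 1 + δ ^ 2) :
    δ * |v| ≤ 4 / 3 * (√(1 - c ^ 2) * (1 + δ ^ 2 - c ^ 2)) := by
  have hr2 : √(1 - c ^ 2) ^ 2 = 1 - c ^ 2 := Real.sq_sqrt (by linarith)
  have hr0 : 0 ≤ √(1 - c ^ 2) := Real.sqrt_nonneg _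
  set r := √(1 - c ^ 2) with hr
  set N := 1 + δ ^ 2 - c ^ 2 with hN
  have hN0 : 0 < N := by rw [hN]; nlinarith
  have h1 : (1 - c ^ 2) * v ^ 2 ≤ N := by
    rw [hN]
    nlinarith [sq_nonneg (a - c * v)]
  have hδN : δ ^ 2 ≤ N := by rw [hN]; linarith
  rw [← pow_le_pow_iff_left₀ (by positivity) (by positivity) (two_ne_zero)]
  have e1 : (δ * |v|) ^ 2 = δ ^ 2 * v ^ 2 := by rw [mul_pow, sq_abs]
  have e2 : (4 / 3 * (r * N)) ^ 2 = 16 / 9 * (1 - c ^ 2) * N ^ 2 := by
    rw [mul_pow, mul_pow, hr2]; ring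
  rw [e1, e2]
  have h34 : 3 / 4 ≤ 1 - c ^ 2 := by linarith
  have h2 : δ ^ 2 * ((1 - c ^ 2) * v ^ 2) ≤ N * N :=
    mul_le_mul hδN h1 (by positivity) hN0.le
  have h3 : N * N ≤ 16 / 9 * (1 - c ^ 2) * (1 - c ^ 2) * N ^ 2 := by
    have : 1 ≤ 16 / 9 * (1 - c ^ 2) * (1 - c ^ 2) := by nlinarith
    nlinarith [sq_nonneg N]
  have h4 : (1 - c ^ 2) * (δ ^ 2 * v ^ 2) ≤ (1 - c ^ 2) * (16 / 9 * (1 - c ^ 2) * N ^ 2) := by
    nlinarith
  exact le_of_mul_le_mul_left h4 (by linarith)

theorem slice_bd {δ c a v : ℝ} (hc : c ^ 2 ≤ 1 / 4)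
    (hS : a ^ 2 + c ^ 2 + v ^ 2 - 2 * a * c * v = 1 + δ ^ 2) :
    |v| ≤ 1 + 4 / 3 * (1 + δ ^ 2) := by
  have h1 : (1 - c ^ 2) * v ^ 2 ≤ 1 + δ ^ 2 := by nlinarith [sq_nonneg (a - c * v), sq_nonneg c]
  have h2 : v ^ 2 ≤ 4 / 3 * (1 + δ ^ 2) := by nlinarith [sq_nonneg v]
  have h3 : |v| ^ 2 ≤ 4 / 3 * (1 + δ ^ 2) := by rw [sq_abs]; exact h2
  nlinarith [abs_nonneg v, sq_nonneg (|v| - 1)]

theorem cross01 (δ : ℝ) (hδ : 0 < δ) (C : ℝ) (hC : 0 ≤ C) : ∃ B : ℕ, ∀ b : ℕ, B ≤ b →
    ∀ (q q' : ℝ → P3), ContP q' (Icc 0 1) →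
      (∀ E ∈ Icc (0 : ℝ) 1, HasDer q (q' E) E ∧ OnS δ (q E) ∧ (q' E).y ≠ 0 ∧
        -(δ * |(q E).z| * (q' E).y ^ 2) ≤
          ((1 - (q E).y ^ 2) * ((q' E).x * (q E).z - (q' E).z * (q E).x)
            - (q' E).y * (q E).z * gA (q E)) * (q' E).y) →
      (q 0).y = -(1 / 2) → (q 1).y = 1 / 2 →
    ∀ (p p' : ℝ → P3), ContP p' (Icc 0 1) →
      (∀ t ∈ Icc (0 : ℝ) 1, HasDer p (p' t) t ∧ OnS δ (p t) ∧ (p' t).z ≠ 0 ∧
        |(p' t).y| ≤ C * |(p' t).z| ∧ |(p' t).x| ≤ C * |(p' t).z|) →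
      (p 0).z = -(1 / 2) → (p 1).z = 1 / 2 →
    ∃ E ∈ Icc (0 : ℝ) 1, ∃ t ∈ Icc (0 : ℝ) 1, stepT b (q E) = p t := by
  set M : ℝ := 1 + 4 / 3 * (1 + δ ^ 2) with hM
  have hM0 : 0 < M := by positivity
  set K : ℝ := 16 / 9 * (2 * C * M + 2 * M ^ 2) with hK
  have hK0 : 0 ≤ K := by positivity
  refine ⟨⌈2 * Real.pi + 4 / 3 + K⌉₊, ?_⟩
  intro b hb q q' hq'c hq hq0 hq1 p p' hp'c hp hp0 hp1
  have hbB : 2 * Real.pi + 4 / 3 + K ≤ b := (Nat.le_ceil _).trans (by exact_mod_cast hb)
  have hzero : (0 : ℝ) ∈ Icc (0 : ℝ) 1 := ⟨le_rfl, zero_le_one⟩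
  have hone : (1 : ℝ) ∈ Icc (0 : ℝ) 1 := ⟨zero_le_one, le_rfl⟩
  -- monotonicity
  obtain ⟨hqpos, hqmono⟩ := pos_of_ne (u := fun s => (q s).y) (u' := fun s => (q' s).y)
    (fun s hs => (hq s hs).1.2.1) (fun s hs => (hq s hs).2.2.1) (by simp only [hq0, hq1]; norm_num)
  obtain ⟨hppos, hpmono⟩ := pos_of_ne (u := fun s => (p s).z) (u' := fun s => (p' s).z)
    (fun s hs => (hp s hs).1.1) (fun s hs => (hp s hs).2.2.1) (by simp only [hp0, hp1]; norm_num)
  have hqy : ∀ s ∈ Icc (0 : ℝ) 1, (q s).y ∈ Icc (-(1 / 2) : ℝ) (1 / 2) := by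
    intro s hs
    constructor
    · rw [← hq0]; exact hqmono.monotoneOn hzero hs hs.1
    · rw [← hq1]; exact hqmono.monotoneOn hs hone hs.2
  have hpz : ∀ s ∈ Icc (0 : ℝ) 1, (p s).z ∈ Icc (-(1 / 2) : ℝ) (1 / 2) := by
    intro s hs
    constructor
    · rw [← hp0]; exact hpmono.monotoneOn hzero hs hs.1
    · rw [← hp1]; exact hpmono.monotoneOn hs hone hs.2
  have hsq : ∀ c : ℝ, c ∈ Icc (-(1 / 2) : ℝ) (1 / 2) → c ^ 2 ≤ 1 / 4 := by
    intro c hc
    nlinarith [hc.1, hc.2]
  have hqS : ∀ s ∈ Icc (0 : ℝ) 1, (q s).x ^ 2 + (q s).y ^ 2 + (q s).z ^ 2 -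
      2 * (q s).x * (q s).y * (q s).z = 1 + δ ^ 2 := fun s hs => (hq s hs).2.1
  have hpS : ∀ s ∈ Icc (0 : ℝ) 1, (p s).x ^ 2 + (p s).z ^ 2 + (p s).y ^ 2 -
      2 * (p s).x * (p s).z * (p s).y = 1 + δ ^ 2 := by
    intro s hs
    have h1 := (hp s hs).2.1
    unfold OnS at h1
    linarith
  obtain ⟨A, hA1, hA2⟩ := curve δ (fun s => (q s).x) (fun s => (q s).y) (fun s => (q s).z)
    (fun s => (q' s).x) (fun s => (q' s).y) (fun s => (q' s).z) hq'c.2.2 hq'c.2.1 hq'c.1
    (fun s hs => (hq s hs).1.2.2) (fun s hs => (hq s hs).1.2.1) (fun s hs => (hq s hs).1.1)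
    hqS (fun s hs => hsq _ (hqy s hs))
  obtain ⟨Z, hZ1, hZ2⟩ := curve δ (fun s => (p s).x) (fun s => (p s).z) (fun s => (p s).y)
    (fun s => (p' s).x) (fun s => (p' s).z) (fun s => (p' s).y) hp'c.2.2 hp'c.1 hp'c.2.1
    (fun s hs => (hp s hs).1.2.2) (fun s hs => (hp s hs).1.1) (fun s hs => (hp s hs).1.2.1)
    hpS (fun s hs => hsq _ (hpz s hs))
  -- bounds for the arguments
  have hAbd : -(4 / 3) ≤ A 1 - A 0 := by
    have hmono : MonotoneOn (fun s => A s + 4 / 3 * (q s).y) (Icc 0 1) := by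
      apply monotoneOn_of_deriv_nonneg (convex_Icc _ _)
      · intro s hs
        exact ((hA1 s hs).continuousAt.add
          ((hq s hs).1.2.1.continuousAt.const_mul _)).continuousWithinAt
      · intro s hs
        rw [interior_Icc] at hs
        have hs' := Ioo_subset_Icc_self hs
        exact ((hA1 s hs').add ((hq s hs').1.2.1.const_mul (4 / 3))).differentiableAt.differentiableWithinAt
      · intro s hs
        rw [interior_Icc] at hs
        have hs' := Ioo_subset_Icc_self hs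
        have h1 := ((hA1 s hs').add ((hq s hs').1.2.1.const_mul (4 / 3))).deriv
        have h2 : deriv (fun s => A s + 4 / 3 * (q s).y) s = _ := h1
        rw [h2]
        have hy2 := hsq _ (hqy s hs')
        have hr0 : 0 < √(1 - (q s).y ^ 2) := Real.sqrt_pos.2 (by linarith)
        have hN0 : 0 < 1 + δ ^ 2 - (q s).y ^ 2 := by nlinarith
        have h3 := twist_bd hδ hy2 (hqS s hs')
        have h4 := (hq s hs').2.2.2
        have hyp := hqpos s hs'
        unfold gA at h4
        have h5 : -(δ * |(q s).z| * (q' s).y) ≤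
            (1 - (q s).y ^ 2) * ((q' s).x * (q s).z - (q' s).z * (q s).x)
            - (q' s).y * (q s).z * ((q s).z - (q s).x * (q s).y) := by
          have h6 : -(δ * |(q s).z| * (q' s).y) * (q' s).y ≤
            ((1 - (q s).y ^ 2) * ((q' s).x * (q s).z - (q' s).z * (q s).x)
            - (q' s).y * (q s).z * ((q s).z - (q s).x * (q s).y)) * (q' s).y := by
            refine le_trans (le_of_eq ?_) h4
            ring
          exact le_of_mul_le_mul_right h6 hyp
        have hden : 0 < √(1 - (q s).y ^ 2) * (1 + δ ^ 2 - (q s).y ^ 2) := mul_pos hr0 hN0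
        have h7 : -(4 / 3 * (q' s).y) ≤ ((1 - (q s).y ^ 2) * ((q' s).x * (q s).z -
            (q' s).z * (q s).x) - (q' s).y * (q s).z * ((q s).z - (q s).x * (q s).y)) /
            (√(1 - (q s).y ^ 2) * (1 + δ ^ 2 - (q s).y ^ 2)) := by
          rw [le_div_iff₀ hden]
          refine le_trans ?_ h5
          have h8 := mul_le_mul_of_nonneg_right h3 hyp.le
          linarith
        linarith
    have := hmono hzero hone zero_le_one
    simp only [hq0, hq1] at this
    linarith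
  have hZbd : Z 1 - Z 0 ≤ K := by
    have hmono : MonotoneOn (fun s => K * (p s).z - Z s) (Icc 0 1) := by
      apply monotoneOn_of_deriv_nonneg (convex_Icc _ _)
      · intro s hs
        exact (((hp s hs).1.1.continuousAt.const_mul _).sub
          (hZ1 s hs).continuousAt).continuousWithinAt
      · intro s hs
        rw [interior_Icc] at hs
        have hs' := Ioo_subset_Icc_self hs
        exact (((hp s hs').1.1.const_mul K).sub (hZ1 s hs')).differentiableAt.differentiableWithinAt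
      · intro s hs
        rw [interior_Icc] at hs
        have hs' := Ioo_subset_Icc_self hs
        have h1 := (((hp s hs').1.1.const_mul K).sub (hZ1 s hs')).deriv
        have h2 : deriv (fun s => K * (p s).z - Z s) s = _ := h1
        rw [h2]
        have hy2 := hsq _ (hpz s hs')
        have hr0 : 0 < √(1 - (p s).z ^ 2) := Real.sqrt_pos.2 (by linarith)
        have hr34 : 3 / 4 ≤ √(1 - (p s).z ^ 2) := by
          apply Real.le_sqrt_of_sq_le
          nlinarith
        have hN0 : 3 / 4 ≤ 1 + δ ^ 2 - (p s).z ^ 2 := by nlinarith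
        have hyb : |(p s).y| ≤ M := slice_bd hy2 (hpS s hs')
        have hxb : |(p s).x| ≤ M := by
          apply slice_bd (a := (p s).y) hy2
          have := hpS s hs'
          linarith
        have hzb : |(p s).z| ≤ 1 := by
          rw [abs_le]
          have := hpz s hs'
          constructor <;> linarith [this.1, this.2]
        have hzp := hppos s hs'
        obtain ⟨-, -, -, hy', hx'⟩ := hp s hs'
        rw [abs_of_pos hzp] at hy' hx'
        have hG : (1 - (p s).z ^ 2) * ((p' s).x * (p s).y - (p' s).y * (p s).x) -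
            (p' s).z * (p s).y * ((p s).y - (p s).x * (p s).z) ≤
            (2 * C * M + 2 * M ^ 2) * (p' s).z := by
          have a1 : (p' s).x * (p s).y ≤ C * (p' s).z * M := by
            calc (p' s).x * (p s).y ≤ |(p' s).x * (p s).y| := le_abs_self _
              _ = |(p' s).x| * |(p s).y| := abs_mul _ _
              _ ≤ C * (p' s).z * M := mul_le_mul hx' hyb (abs_nonneg _) (by positivity)
          have a2 : -((p' s).y * (p s).x) ≤ C * (p' s).z * M := by
            calc -((p' s).y * (p s).x) ≤ |(p' s).y * (p s).x| := neg_le_abs _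
              _ = |(p' s).y| * |(p s).x| := abs_mul _ _
              _ ≤ C * (p' s).z * M := mul_le_mul hy' hxb (abs_nonneg _) (by positivity)
          have a3 : -((p s).y * ((p s).y - (p s).x * (p s).z)) ≤ 2 * M ^ 2 := by
            have a4 : |(p s).y * (p s).x * (p s).z| ≤ M * M * 1 := by
              rw [abs_mul, abs_mul]
              exact mul_le_mul (mul_le_mul hyb hxb (abs_nonneg _) hM0.le) hzb (abs_nonneg _)
                (by positivity)
            have a5 := (abs_le.1 a4).2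
            nlinarith [sq_nonneg (p s).y]
          have a6 : 0 ≤ C * (p' s).z * M := by positivity
          have a7 : (1 - (p s).z ^ 2) * ((p' s).x * (p s).y - (p' s).y * (p s).x) ≤
              2 * (C * (p' s).z * M) := by
            have b1 : 0 ≤ 1 - (p s).z ^ 2 := by linarith
            have b2 : 1 - (p s).z ^ 2 ≤ 1 := by nlinarith [sq_nonneg (p s).z]
            calc (1 - (p s).z ^ 2) * ((p' s).x * (p s).y - (p' s).y * (p s).x) ≤
                (1 - (p s).z ^ 2) * (2 * (C * (p' s).z * M)) :=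
                  mul_le_mul_of_nonneg_left (by linarith) b1
              _ ≤ 1 * (2 * (C * (p' s).z * M)) :=
                  mul_le_mul_of_nonneg_right b2 (by linarith)
              _ = _ := one_mul _
          have a8 := mul_le_mul_of_nonneg_right a3 hzp.le
          linarith
        have hden : 9 / 16 ≤ √(1 - (p s).z ^ 2) * (1 + δ ^ 2 - (p s).z ^ 2) := by
          have := mul_le_mul hr34 hN0 (by norm_num) (by linarith)
          linarith
        have h7 : ((1 - (p s).z ^ 2) * ((p' s).x * (p s).y - (p' s).y * (p s).x) -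
            (p' s).z * (p s).y * ((p s).y - (p s).x * (p s).z)) /
            (√(1 - (p s).z ^ 2) * (1 + δ ^ 2 - (p s).z ^ 2)) ≤ K * (p' s).z := by
          rw [div_le_iff₀ (by linarith)]
          refine hG.trans ?_
          have c1 : 0 ≤ (2 * C * M + 2 * M ^ 2) * (p' s).z := by positivity
          have c2 := mul_le_mul_of_nonneg_left hden c1
          rw [hK]
          linarith
        linarith
    have := hmono hzero hone zero_le_one
    simp only [hp0, hp1] at this
    linarith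
  -- matching the parameters
  obtain ⟨T, hTc, hT0, hT1, hT⟩ := exists_match (u := fun s => (q s).y) (w := fun s => (p s).z)
    (fun s hs => (hq s hs).1.2.1.continuousAt.continuousWithinAt)
    (fun s hs => (hp s hs).1.1.continuousAt.continuousWithinAt) hqmono hpmono
    (by simp only [hq0, hp0]) (by simp only [hq1, hp1])
  set H : ℝ → ℝ := fun s => b * Real.arccos (q s).y - A s + Z (T s) with hH
  have hHc : ContinuousOn H (Icc 0 1) := by
    have c1 : ContinuousOn (fun s => Real.arccos (q s).y) (Icc 0 1) :=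
      Real.continuous_arccos.comp_continuousOn
        (fun s hs => (hq s hs).1.2.1.continuousAt.continuousWithinAt)
    have c2 : ContinuousOn A (Icc 0 1) := fun s hs => (hA1 s hs).continuousAt.continuousWithinAt
    have c3 : ContinuousOn Z (Icc 0 1) := fun s hs => (hZ1 s hs).continuousAt.continuousWithinAt
    exact ((continuousOn_const.mul c1).sub c2).add (c3.comp hTc fun s hs => (hT s hs).1)
  have hac : Real.arccos (1 / 2) = Real.pi / 3 := by
    rw [← Real.cos_pi_div_three]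
    exact Real.arccos_cos (by positivity) (by linarith [Real.pi_pos])
  have hHd : H 1 ≤ H 0 - 2 * Real.pi := by
    simp only [hH, hq0, hq1, hT0, hT1, Real.arccos_neg, hac]
    have h1 : (b : ℝ) ≤ b * (Real.pi / 3) := by
      have : 1 ≤ Real.pi / 3 := by linarith [Real.pi_gt_three]
      nlinarith [Nat.cast_nonneg (α := ℝ) b]
    linarith
  set n : ℤ := ⌊H 0 / (2 * Real.pi)⌋ with hn
  have hpi : 0 < 2 * Real.pi := by positivity
  have hn1 : n * (2 * Real.pi) ≤ H 0 := by
    rw [← le_div_iff₀ hpi]; exact Int.floor_le _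
  have hn2 : H 0 < (n + 1) * (2 * Real.pi) := by
    rw [← div_lt_iff₀ hpi]; exact Int.lt_floor_add_one _
  obtain ⟨s, hs, hHs⟩ := intermediate_value_Icc' (zero_le_one' ℝ) hHc
    (show (n : ℝ) * (2 * Real.pi) ∈ Icc (H 1) (H 0) from ⟨by linarith, hn1⟩)
  obtain ⟨hTs, hTs2⟩ := hT s hs
  refine ⟨s, hs, T s, hTs, ?_⟩
  -- the identity
  set φ := Real.arccos (q s).y with hφ
  have hy2 := hsq _ (hqy s hs)
  have hcos : (q s).y = Real.cos φ := by
    rw [hφ, Real.cos_arccos] <;> linarith [(hqy s hs).1, (hqy s hs).2]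
  have hsin : √(1 - (q s).y ^ 2) = Real.sin φ := by rw [hφ, Real.sin_arccos]
  have hr0 : 0 < √(1 - (q s).y ^ 2) := Real.sqrt_pos.2 (by linarith)
  have hexp : Complex.exp (Complex.I * φ) =
      ((q s).y : ℂ) + Complex.I * (√(1 - (q s).y ^ 2) : ℝ) := by
    rw [hcos, mul_comm, Complex.exp_mul_I, ← hcos, hsin]
    rw [hcos]
    push_cast
    ring
  have h1 := tq_exp (q s) φ hcos b
  have h2 := hA2 s hs
  have h3 := hZ2 (T s) hTs
  rw [hTs2, ← hexp] at h3
  rw [← hexp] at h2
  rw [h2] at h1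
  have h4 : Complex.exp (Complex.I * Z (T s)) =
      Complex.exp (-(Complex.I * φ)) ^ b * Complex.exp (Complex.I * A s) := by
    rw [← Complex.exp_nat_mul, ← Complex.exp_add, Complex.exp_eq_exp_iff_exists_int]
    refine ⟨n, ?_⟩
    have h5 : ((b * φ - A s + Z (T s) : ℝ) : ℂ) = ((n * (2 * Real.pi) : ℝ) : ℂ) := by
      exact_mod_cast hHs
    push_cast at h5
    linear_combination Complex.I * h5
  rw [h4] at h3
  have h5 : (tq (q s) (b + 1) : ℂ) - Complex.exp (Complex.I * φ) * tq (q s) b =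
      ((p (T s)).x : ℂ) - Complex.exp (Complex.I * φ) * (p (T s)).y := by
    rw [h1, h3]
    ring
  rw [hexp] at h5
  have him := congrArg Complex.im h5
  have hre := congrArg Complex.re h5
  simp only [Complex.sub_im, Complex.ofReal_im, Complex.mul_im, Complex.add_re, Complex.ofReal_re,
    Complex.mul_re, Complex.I_re, Complex.I_im, Complex.add_im, Complex.sub_re] at him hre
  have hY : tq (q s) b = (p (T s)).y := by
    have : √(1 - (q s).y ^ 2) * tq (q s) b = √(1 - (q s).y ^ 2) * (p (T s)).y := by linarith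
    exact mul_left_cancel₀ hr0.ne' this
  have hX : tq (q s) (b + 1) = (p (T s)).x := by
    rw [hY] at hre
    linarith
  rw [stepT_eq]
  ext
  · exact hTs2.symm
  · exact hY
  · exact hX

theorem affmem {e0 e1 s : ℝ} (hs : s ∈ Icc (0 : ℝ) 1) : e0 + s * (e1 - e0) ∈ uIcc e0 e1 := by
  rw [← segment_eq_uIcc]
  refine ⟨1 - s, s, by linarith [hs.2], hs.1, by ring, ?_⟩
  simp only [smul_eq_mul]
  ring

theorem affder {f : ℝ → ℝ} {e0 e1 s c : ℝ} (h : HasDerivAt f c (e0 + s * (e1 - e0))) :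
    HasDerivAt (fun s => f (e0 + s * (e1 - e0))) ((e1 - e0) * c) s := by
  have h1 : HasDerivAt (fun s : ℝ => e0 + s * (e1 - e0)) (e1 - e0) s := by
    have := ((hasDerivAt_id s).mul_const (e1 - e0)).const_add e0
    simpa using this
  have h2 := h.comp s h1
  rw [mul_comm]
  exact h2

theorem affcont {f : ℝ → ℝ} {e0 e1 : ℝ} (h : ContinuousOn f (uIcc e0 e1)) :
    ContinuousOn (fun s => (e1 - e0) * f (e0 + s * (e1 - e0))) (Icc 0 1) := by
  apply ContinuousOn.mul continuousOn_const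
  exact h.comp (by fun_prop) fun s hs => affmem hs

/-- **SD-CROSS** -/
theorem tCross : TCross := by
  intro δ hδ C hC
  obtain ⟨B, hB⟩ := cross01 δ hδ C hC
  refine ⟨B, ?_⟩
  intro b hb q q' e0 e1 he hq'c hq hq0 hq1 p p' t0 t1 ht hp'c hp hp0 hp1
  have hne : e1 - e0 ≠ 0 := sub_ne_zero.2 he.symm
  have hne2 : t1 - t0 ≠ 0 := sub_ne_zero.2 ht.symm
  have hpos : 0 < |t1 - t0| := abs_pos.2 hne2
  obtain ⟨s, hs, t, ht', h⟩ := hB b hb (fun s => q (e0 + s * (e1 - e0)))
    (fun s => ⟨(e1 - e0) * (q' (e0 + s * (e1 - e0))).z, (e1 - e0) * (q' (e0 + s * (e1 - e0))).y,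
      (e1 - e0) * (q' (e0 + s * (e1 - e0))).x⟩)
    ⟨affcont hq'c.1, affcont hq'c.2.1, affcont hq'c.2.2⟩ (by
      intro s hs
      obtain ⟨h1, h2, h3, h4⟩ := hq _ (affmem (e0 := e0) (e1 := e1) hs)
      refine ⟨⟨affder h1.1, affder h1.2.1, affder h1.2.2⟩, h2, mul_ne_zero hne h3, ?_⟩
      have h5 := mul_le_mul_of_nonneg_left h4 (sq_nonneg (e1 - e0))
      simp only
      refine le_trans (le_of_eq ?_) (h5.trans (le_of_eq ?_))
      · ring
      · ring)
    (by simp only [zero_mul, add_zero]; exact hq0)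
    (by simp only [one_mul, add_sub_cancel]; exact hq1)
    (fun s => p (t0 + s * (t1 - t0)))
    (fun s => ⟨(t1 - t0) * (p' (t0 + s * (t1 - t0))).z, (t1 - t0) * (p' (t0 + s * (t1 - t0))).y,
      (t1 - t0) * (p' (t0 + s * (t1 - t0))).x⟩)
    ⟨affcont hp'c.1, affcont hp'c.2.1, affcont hp'c.2.2⟩ (by
      intro s hs
      obtain ⟨h1, h2, h3, h4, h5⟩ := hp _ (affmem (e0 := t0) (e1 := t1) hs)
      refine ⟨⟨affder h1.1, affder h1.2.1, affder h1.2.2⟩, h2, mul_ne_zero hne2 h3, ?_, ?_⟩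
      · simp only [abs_mul]
        have h6 := mul_le_mul_of_nonneg_left h4 hpos.le
        linarith
      · simp only [abs_mul]
        have h6 := mul_le_mul_of_nonneg_left h5 hpos.le
        linarith)
    (by simp only [zero_mul, add_zero]; exact hp0)
    (by simp only [one_mul, add_sub_cancel]; exact hp1)
  exact ⟨_, affmem hs, _, affmem ht', h⟩

end Pool.Agent.W308.Stu
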