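import Pool.Agent.W308.Stu.Bdd

/-!
SD-CROSS, part 1: continuous arguments.
-/

set_option autoImplicit false

open Filter Topology Set

namespace Pool.Agent.W308.Stu

/-- continuous logarithm along a curve on `[0,1]` -/
theorem lift01 (ξ ξ' : ℝ → ℂ) (hc : ContinuousOn ξ' (Icc 0 1))
    (hd : ∀ s ∈ Icc (0 : ℝ) 1, HasDerivAt ξ (ξ' s) s) (h0 : ∀ s ∈ Icc (0 : ℝ) 1, ξ s ≠ 0) :
    ∃ A : ℝ → ℝ, (∀ s ∈ Icc (0 : ℝ) 1, HasDerivAt A (ξ' s / ξ s).im s) ∧
      ∀ s ∈ Icc (0 : ℝ) 1, ξ s = (‖ξ s‖ : ℂ) * Complex.exp (Complex.I * A s) := by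
  have hξc : ContinuousOn ξ (Icc 0 1) := fun s hs => (hd s hs).continuousAt.continuousWithinAt
  have hfc : ContinuousOn (fun s => ξ' s / ξ s) (Icc (0 : ℝ) 1) := hc.div hξc h0
  set F : ℝ → ℂ := IccExtend (zero_le_one' ℝ) ((Icc (0 : ℝ) 1).domRestrict fun s => ξ' s / ξ s) with hF
  have hFc : Continuous F := by
    rw [hF]
    exact (continuousOn_iff_continuous_domRestrict.1 hfc).Icc_extend'
  have hFe : ∀ s ∈ Icc (0 : ℝ) 1, F s = ξ' s / ξ s := by
    intro s hs
    rw [hF, IccExtend_of_mem _ _ hs]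
    rfl
  set L : ℝ → ℂ := fun s => Complex.log (ξ 0) + ∫ x in (0 : ℝ)..s, F x with hL
  have hLd : ∀ s, HasDerivAt L (F s) s := by
    intro s
    have h1 := intervalIntegral.integral_hasDerivAt_right (hFc.intervalIntegrable 0 s)
      (hFc.stronglyMeasurableAtFilter _ _) hFc.continuousAt
    exact h1.const_add _
  have hzero : (0 : ℝ) ∈ Icc (0 : ℝ) 1 := ⟨le_rfl, zero_le_one⟩
  have hconst : ∀ s ∈ Icc (0 : ℝ) 1, ξ s * Complex.exp (-L s) = 1 := by
    have hder : ∀ s ∈ Icc (0 : ℝ) 1, HasDerivAt (fun s => ξ s * Complex.exp (-L s)) 0 s := by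
      intro s hs
      have h1 := (hd s hs).mul (hLd s).neg.cexp
      have h2 : ξ' s * Complex.exp (-L s) + ξ s * (Complex.exp (-L s) * -F s) = 0 := by
        rw [hFe s hs]
        have := h0 s hs
        field_simp
        ring
      rw [← h2]
      exact h1
    have h3 := constant_of_has_deriv_right_zero (f := fun s => ξ s * Complex.exp (-L s))
      (a := 0) (b := 1) (fun s hs => (hder s hs).continuousAt.continuousWithinAt)
      (fun s hs => (hder s (Ico_subset_Icc_self hs)).hasDerivWithinAt)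
    intro s hs
    rw [h3 s hs]
    have : L 0 = Complex.log (ξ 0) := by simp [hL]
    simp only [this]
    rw [Complex.exp_neg, Complex.exp_log (h0 0 hzero), mul_inv_cancel₀ (h0 0 hzero)]
  have hexp : ∀ s ∈ Icc (0 : ℝ) 1, ξ s = Complex.exp (L s) := by
    intro s hs
    have h1 := hconst s hs
    rw [Complex.exp_neg] at h1
    field_simp at h1
    exact h1
  refine ⟨fun s => (L s).im, ?_, ?_⟩
  · intro s hs
    have h1 := hLd s
    rw [hFe s hs] at h1
    exact (Complex.imCLM.hasFDerivAt.comp_hasDerivAt s h1)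
  · intro s hs
    rw [hexp s hs, Complex.norm_exp, Complex.ofReal_exp, ← Complex.exp_add]
    congr 1
    apply Complex.ext <;> simp

/-- the continuous argument for a curve on the surface -/
theorem curve (δ : ℝ) (a u v a' u' v' : ℝ → ℝ)
    (hca : ContinuousOn a' (Icc 0 1)) (hcu : ContinuousOn u' (Icc 0 1))
    (hcv : ContinuousOn v' (Icc 0 1))
    (ha : ∀ s ∈ Icc (0 : ℝ) 1, HasDerivAt a (a' s) s)
    (hu : ∀ s ∈ Icc (0 : ℝ) 1, HasDerivAt u (u' s) s)
    (hv : ∀ s ∈ Icc (0 : ℝ) 1, HasDerivAt v (v' s) s)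
    (hS : ∀ s ∈ Icc (0 : ℝ) 1, a s ^ 2 + u s ^ 2 + v s ^ 2 - 2 * a s * u s * v s = 1 + δ ^ 2)
    (hub : ∀ s ∈ Icc (0 : ℝ) 1, u s ^ 2 ≤ 1 / 4) :
    ∃ A : ℝ → ℝ, (∀ s ∈ Icc (0 : ℝ) 1, HasDerivAt A
        (((1 - u s ^ 2) * (a' s * v s - v' s * a s) - u' s * v s * (v s - a s * u s)) /
          (√(1 - u s ^ 2) * (1 + δ ^ 2 - u s ^ 2))) s) ∧
      ∀ s ∈ Icc (0 : ℝ) 1, (a s : ℂ) - ((u s : ℂ) + Complex.I * (√(1 - u s ^ 2) : ℝ)) * v s =
        (√(1 + δ ^ 2 - u s ^ 2) : ℝ) * Complex.exp (Complex.I * A s) := by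
  set r : ℝ → ℝ := fun s => √(1 - u s ^ 2) with hr
  have hr2 : ∀ s ∈ Icc (0 : ℝ) 1, r s ^ 2 = 1 - u s ^ 2 := by
    intro s hs
    exact Real.sq_sqrt (by linarith [hub s hs])
  have hr0 : ∀ s ∈ Icc (0 : ℝ) 1, 0 < r s := by
    intro s hs
    exact Real.sqrt_pos.2 (by linarith [hub s hs])
  set r' : ℝ → ℝ := fun s => -(u s * u' s) / r s with hr'
  have hrd : ∀ s ∈ Icc (0 : ℝ) 1, HasDerivAt r (r' s) s := by
    intro s hs
    have h1 : HasDerivAt (fun s => 1 - u s ^ 2) (-(2 * u s * u' s)) s := by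
      have := ((hu s hs).pow 2).const_sub 1
      simpa using this
    have h2 := h1.sqrt (by linarith [hub s hs])
    have h3 : -(2 * u s * u' s) / (2 * √(1 - u s ^ 2)) = r' s := by
      have := (hr0 s hs).ne'
      simp only [hr', hr] at this ⊢
      field_simp
    rw [← h3]
    exact h2
  have hrc : ContinuousOn r (Icc 0 1) := fun s hs => (hrd s hs).continuousAt.continuousWithinAt
  have huc : ContinuousOn u (Icc 0 1) := fun s hs => (hu s hs).continuousAt.continuousWithinAt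
  have hvc : ContinuousOn v (Icc 0 1) := fun s hs => (hv s hs).continuousAt.continuousWithinAt
  have hr'c : ContinuousOn r' (Icc 0 1) :=
    (huc.mul hcu).neg.div hrc fun s hs => (hr0 s hs).ne'
  set ξ : ℝ → ℂ := fun s => (a s : ℂ) - ((u s : ℂ) + Complex.I * (r s : ℝ)) * v s with hξ
  set ξ' : ℝ → ℂ := fun s => (a' s : ℂ) - (((u' s : ℂ) + Complex.I * (r' s : ℝ)) * v s +
    ((u s : ℂ) + Complex.I * (r s : ℝ)) * v' s) with hξ'
  have hξd : ∀ s ∈ Icc (0 : ℝ) 1, HasDerivAt ξ (ξ' s) s := by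
    intro s hs
    have h1 := (ha s hs).ofReal_comp
    have h2 := (hu s hs).ofReal_comp
    have h3 := (hrd s hs).ofReal_comp
    have h4 := (hv s hs).ofReal_comp
    exact h1.sub ((h2.add (h3.const_mul Complex.I)).mul h4)
  have hofc : ∀ {f : ℝ → ℝ}, ContinuousOn f (Icc 0 1) →
      ContinuousOn (fun s => (f s : ℂ)) (Icc 0 1) := fun h =>
    Complex.continuous_ofReal.comp_continuousOn h
  have hξ'c : ContinuousOn ξ' (Icc 0 1) := by
    refine (hofc hca).sub ((((hofc hcu).add (continuousOn_const.mul (hofc hr'c))).mul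
      (hofc hvc)).add (((hofc huc).add (continuousOn_const.mul (hofc hrc))).mul (hofc hcv)))
  have hre : ∀ s, (ξ s).re = a s - u s * v s := by
    intro s; simp [hξ]
  have him : ∀ s, (ξ s).im = -(r s * v s) := by
    intro s; simp [hξ]
  have hnsq : ∀ s ∈ Icc (0 : ℝ) 1, Complex.normSq (ξ s) = 1 + δ ^ 2 - u s ^ 2 := by
    intro s hs
    rw [Complex.normSq_apply, hre, him]
    have h1 := hr2 s hs
    have h2 := hS s hs
    linear_combination h2 + v s ^ 2 * h1
  have hpos : ∀ s ∈ Icc (0 : ℝ) 1, 0 < 1 + δ ^ 2 - u s ^ 2 := by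
    intro s hs
    have := hub s hs
    nlinarith [sq_nonneg δ]
  have hne : ∀ s ∈ Icc (0 : ℝ) 1, ξ s ≠ 0 := by
    intro s hs h
    have h1 := hnsq s hs
    rw [h, map_zero] at h1
    have := hpos s hs
    linarith
  have hnorm : ∀ s ∈ Icc (0 : ℝ) 1, ‖ξ s‖ = √(1 + δ ^ 2 - u s ^ 2) := by
    intro s hs
    rw [← hnsq s hs, Complex.norm_def]
  obtain ⟨A, hA1, hA2⟩ := lift01 ξ ξ' hξ'c hξd hne
  refine ⟨A, ?_, ?_⟩
  · intro s hs
    have h1 := hA1 s hs
    have hre' : (ξ' s).re = a' s - (u' s * v s + u s * v' s) := by simp [hξ']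
    have him' : (ξ' s).im = -(r' s * v s + r s * v' s) := by simp [hξ']
    have h2 : (ξ' s / ξ s).im = ((1 - u s ^ 2) * (a' s * v s - v' s * a s) -
        u' s * v s * (v s - a s * u s)) / (√(1 - u s ^ 2) * (1 + δ ^ 2 - u s ^ 2)) := by
      rw [Complex.div_im, hnsq s hs, hre, him, hre', him', ← sub_div]
      have hrr := hr0 s hs
      have hrr2 := hr2 s hs
      have hp := hpos s hs
      have e : √(1 - u s ^ 2) = r s := rfl
      have e2 : r' s = -(u s * u' s) / r s := rfl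
      rw [e, e2, div_eq_div_iff hp.ne' (mul_pos hrr hp).ne']
      field_simp
      linear_combination (v s * (a' s - (u' s * v s + u s * v' s)) -
        v' s * (a s - u s * v s)) * hrr2
    rw [← h2]
    exact h1
  · intro s hs
    have h1 := hA2 s hs
    rw [hnorm s hs] at h1
    exact h1

end Pool.Agent.W308.Stu
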