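import Pool.Agent.W308.Stu.Cross1

/-!
SD-CROSS, part 2: the crossing on the unit interval.
-/

set_option autoImplicit false

open Filter Topology Set

namespace Pool.Agent.W308.Stu

open Pool.Agent.W811.Stu

theorem pos_of_ne {u u' : ℝ → ℝ} (hu : ∀ s ∈ Icc (0 : ℝ) 1, HasDerivAt u (u' s) s)
    (hne : ∀ s ∈ Icc (0 : ℝ) 1, u' s ≠ 0) (h01 : u 0 < u 1) :
    (∀ s ∈ Icc (0 : ℝ) 1, 0 < u' s) ∧ StrictMonoOn u (Icc 0 1) := by
  have hc : ContinuousOn u (Icc 0 1) := fun s hs => (hu s hs).continuousAt.continuousWithinAt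
  have h1 := hasDerivWithinAt_forall_lt_or_forall_gt_of_forall_ne (convex_Icc (0 : ℝ) 1)
    (fun s hs => (hu s hs).hasDerivWithinAt) hne
  rcases h1 with h1 | h1
  · exfalso
    have h2 : StrictAntiOn u (Icc 0 1) := by
      apply strictAntiOn_of_deriv_neg (convex_Icc _ _) hc
      intro s hs
      rw [interior_Icc] at hs
      rw [(hu s (Ioo_subset_Icc_self hs)).deriv]
      exact h1 s (Ioo_subset_Icc_self hs)
    have := h2 (left_mem_Icc.2 zero_le_one) (right_mem_Icc.2 zero_le_one) zero_lt_one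
    linarith
  · refine ⟨h1, ?_⟩
    apply strictMonoOn_of_deriv_pos (convex_Icc _ _) hc
    intro s hs
    rw [interior_Icc] at hs
    rw [(hu s (Ioo_subset_Icc_self hs)).deriv]
    exact h1 s (Ioo_subset_Icc_self hs)

theorem exists_match {u w : ℝ → ℝ} (hu : ContinuousOn u (Icc 0 1)) (hw : ContinuousOn w (Icc 0 1))
    (hum : StrictMonoOn u (Icc 0 1)) (hwm : StrictMonoOn w (Icc 0 1))
    (h0 : w 0 = u 0) (h1 : w 1 = u 1) :
    ∃ T : ℝ → ℝ, ContinuousOn T (Icc 0 1) ∧ T 0 = 0 ∧ T 1 = 1 ∧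
      ∀ s ∈ Icc (0 : ℝ) 1, T s ∈ Icc (0 : ℝ) 1 ∧ w (T s) = u s := by
  have hz : (0 : ℝ) ∈ Icc (0 : ℝ) 1 := left_mem_Icc.2 zero_le_one
  have ho : (1 : ℝ) ∈ Icc (0 : ℝ) 1 := right_mem_Icc.2 zero_le_one
  have hle : w 0 ≤ w 1 := hwm.monotoneOn hz ho zero_le_one
  set f : Icc (0 : ℝ) 1 → Icc (w 0) (w 1) := fun t =>
    ⟨w t, hwm.monotoneOn hz t.2 t.2.1, hwm.monotoneOn t.2 ho t.2.2⟩ with hf
  have hfm : StrictMono f := by
    intro a b hab
    exact hwm a.2 b.2 hab
  have hfs : Function.Surjective f := by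
    rintro ⟨y, hy⟩
    obtain ⟨t, ht, hty⟩ := intermediate_value_Icc (zero_le_one' ℝ) hw hy
    exact ⟨⟨t, ht⟩, Subtype.ext hty⟩
  set e := hfm.orderIsoOfSurjective f hfs with he
  have hec : Continuous e.symm := e.symm.continuous
  refine ⟨fun s => (e.symm (projIcc (w 0) (w 1) hle (u s)) : ℝ), ?_, ?_, ?_, ?_⟩
  · exact continuous_subtype_val.comp_continuousOn
      (hec.comp_continuousOn (continuous_projIcc.comp_continuousOn hu))
  · have h2 : projIcc (w 0) (w 1) hle (u 0) = e ⟨0, hz⟩ := by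
      rw [projIcc_of_mem hle (x := u 0) (by rw [← h0]; exact ⟨le_rfl, hle⟩)]
      apply Subtype.ext
      exact h0.symm
    simp only [h2, OrderIso.symm_apply_apply]
  · have h2 : projIcc (w 0) (w 1) hle (u 1) = e ⟨1, ho⟩ := by
      rw [projIcc_of_mem hle (x := u 1) (by rw [← h1]; exact ⟨hle, le_rfl⟩)]
      apply Subtype.ext
      exact h1.symm
    simp only [h2, OrderIso.symm_apply_apply]
  · intro s hs
    refine ⟨(e.symm _).2, ?_⟩
    have hmem : u s ∈ Icc (w 0) (w 1) := by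
      rw [h0, h1]
      exact ⟨hum.monotoneOn hz hs hs.1, hum.monotoneOn hs ho hs.2⟩
    have h2 := e.apply_symm_apply (projIcc (w 0) (w 1) hle (u s))
    have h3 := congrArg Subtype.val h2
    rw [projIcc_of_mem hle hmem] at h3
    change w (e.symm (projIcc (w 0) (w 1) hle (u s)) : ℝ) = u s
    rw [projIcc_of_mem hle hmem]
    exact h3

/-- the recursion in terms of a complex number -/
theorem tq_exp (p : P3) (φ : ℝ) (hφ : p.y = Real.cos φ) (b : ℕ) :
    (tq p (b + 1) : ℂ) - Complex.exp (Complex.I * φ) * tq p b =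
      Complex.exp (-(Complex.I * φ)) ^ b * ((p.x : ℂ) - Complex.exp (Complex.I * φ) * p.z) := by
  have hcos : (2 : ℂ) * (p.y : ℂ) = Complex.exp (Complex.I * φ) + Complex.exp (-(Complex.I * φ)) := by
    rw [hφ, Complex.ofReal_cos, Complex.cos]
    rw [mul_comm Complex.I]
    ring_nf
  have hinv : Complex.exp (Complex.I * φ) * Complex.exp (-(Complex.I * φ)) = 1 := by
    rw [← Complex.exp_add]; simp
  induction b with
  | zero =>
    rw [pow_zero, one_mul, zero_add, tq_one, tq_zero]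
  | succ b ih =>
    rw [tq_rec]
    push_cast
    have e : Complex.exp (-(Complex.I * φ)) ^ (b + 1) *
        ((p.x : ℂ) - Complex.exp (Complex.I * φ) * p.z) = Complex.exp (-(Complex.I * φ)) *
        (Complex.exp (-(Complex.I * φ)) ^ b * ((p.x : ℂ) - Complex.exp (Complex.I * φ) * p.z)) := by
      rw [pow_succ']; ring
    rw [e, ← ih]
    linear_combination (tq p (b + 1) : ℂ) * hcos + (tq p b : ℂ) * hinv

end Pool.Agent.W308.Stu
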